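import Pool.Agent.TH722.FI.Defs
import Pool.Agent.TH11.FI_RED
namespace Pool.Agent.TH722.FI.Jobs
open MeasureTheory Set Filter Pool.Agent.TH722.FI
open scoped Topology ENNReal

-- RED
theorem reduction.{u} {r : ℕ} {X Y : Type u} [MeasurableSpace X] [StandardBorelSpace X]
    [MeasurableSpace Y] [StandardBorelSpace Y] (μ : Measure X) (ν : Measure Y)
    [IsProbabilityMeasure μ] [IsProbabilityMeasure ν]
    [MulAction (FreeGroup (Fin r)) X] [MulAction (FreeGroup (Fin r)) Y]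
    (hX : ∀ g : FreeGroup (Fin r), MeasurePreserving (fun x : X => g • x) μ μ)
    (hY : ∀ g : FreeGroup (Fin r), MeasurePreserving (fun y : Y => g • y) ν ν)
    (freeX : ∀ᵐ x ∂μ, ∀ g : FreeGroup (Fin r), g • x = x → g = 1)
    (freeY : ∀ᵐ y ∂ν, ∀ g : FreeGroup (Fin r), g • y = y → g = 1)
    (Φ : X → Y) (Ψ : Y → X) (hΦ : MeasurePreserving Φ μ ν) (hΨ : MeasurePreserving Ψ ν μ)
    (h1 : ∀ᵐ x ∂μ, Ψ (Φ x) = x) (h2 : ∀ᵐ y ∂ν, Φ (Ψ y) = y)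
    (horb : ∀ᵐ x ∂μ, Φ '' MulAction.orbit (FreeGroup (Fin r)) x =
      MulAction.orbit (FreeGroup (Fin r)) (Φ x))
    (α : FreeGroup (Fin r) → X → FreeGroup (Fin r)) (hα : ∀ᵐ x ∂μ, ∀ g, α g x • Φ x = Φ (g • x))
    (β : FreeGroup (Fin r) → Y → FreeGroup (Fin r)) (hβ : ∀ᵐ y ∂ν, ∀ g, β g y • Ψ y = Ψ (g • y))
    (p : ℝ≥0∞) (hα2 : ∀ g, MemLp (fun x => ((α g x).norm : ℝ)) p μ)
    (hβ2 : ∀ g, MemLp (fun y => ((β g y).norm : ℝ)) p ν) :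
    ∃ (Z : Type u) (_ : MeasurableSpace Z) (_ : StandardBorelSpace Z) (m : Measure Z)
      (_ : IsProbabilityMeasure m) (T U : FreeGroup (Fin r) → Z → Z) (j : Z → X) (k : Z → Y)
      (a b : Fin r → Z → FreeGroup (Fin r)),
      FreeAct m T ∧ FreeAct m U ∧ (∀ g z, ∃ h, T g z = U h z) ∧ (∀ g z, ∃ h, U g z = T h z) ∧
      MeasurePreserving j m μ ∧ MeasurePreserving k m ν ∧
      (∀ g z, j (T g z) = g • j z) ∧ (∀ g z, k (U g z) = g • k z) ∧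
      (∀ B : Set Z, MeasurableSet B → ∃ B1 : Set X, MeasurableSet B1 ∧ B =ᵐ[m] j ⁻¹' B1) ∧
      (∀ B : Set Z, MeasurableSet B → ∃ B1 : Set Y, MeasurableSet B1 ∧ B =ᵐ[m] k ⁻¹' B1) ∧
      (∀ i z, T (FreeGroup.of i) z = U (b i z) z) ∧ (∀ i z, U (FreeGroup.of i) z = T (a i z) z) ∧
      (∀ i, MemLp (fun z => ((b i z).norm : ℝ)) p m) ∧
      (∀ i, MemLp (fun z => ((a i z).norm : ℝ)) p m) := Pool.Agent.TH11.FIRED.reduction μ ν hX hY freeX freeY Φ Ψ hΦ hΨ h1 h2 horb α hα β hβ p hα2 hβ2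
end Pool.Agent.TH722.FI.Jobs
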