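import Pool.Agent.TH722.FI.CS
import Pool.Agent.TH722.FI.JE
namespace Pool.Agent.TH722.FI
open MeasureTheory Set Filter Jobs
open scoped Topology ENNReal

section transfer
variable {r : ℕ}

theorem BF_transfer {Z X P : Type*} [MeasurableSpace Z] [MeasurableSpace X] {m : Measure Z}
    {μ : Measure X} [IsProbabilityMeasure m] [IsProbabilityMeasure μ]
    (T : FreeGroup (Fin r) → Z → Z) (T' : FreeGroup (Fin r) → X → X)
    (j : Z → X) (hj : MeasurePreserving j m μ) (heq : ∀ g z, j (T g z) = T' g (j z))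
    (hT'm : ∀ g, MeasurePreserving (T' g) μ μ)
    {l : X → P} (hl : IsLab μ l) :
    BF m T (fun z => l (j z)) = BF μ T' l := by
  unfold BF
  rw [(lab_comp hj hl).2]
  congr 1
  refine Finset.sum_congr rfl fun i _ => ?_
  have h2 := lab_pair hl (lab_comp (hT'm (FreeGroup.of i)⁻¹) hl).1
  rw [← (lab_comp hj h2.1).2]
  simp only [heq]

theorem Gen_transfer {Z X P : Type*} [MeasurableSpace Z] [MeasurableSpace X] {m : Measure Z}
    {μ : Measure X}
    (T : FreeGroup (Fin r) → Z → Z) (T' : FreeGroup (Fin r) → X → X)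
    (j : Z → X) (hj : MeasurePreserving j m μ) (heq : ∀ g z, j (T g z) = T' g (j z))
    (hB : ∀ B : Set Z, MeasurableSet B → ∃ B1 : Set X, MeasurableSet B1 ∧ B =ᵐ[m] j ⁻¹' B1)
    {l : X → P} (hg : Gen μ T' l) : Gen m T (fun z => l (j z)) := by
  intro B hBm
  obtain ⟨B1, hB1, hBB⟩ := hB B hBm
  obtain ⟨B', hB', hBB'⟩ := hg B1 hB1
  refine ⟨j ⁻¹' B', ?_, ?_⟩
  · have h1 : MeasurableSet[MeasurableSpace.comap j
        (⨆ g, MeasurableSpace.comap (fun x => l (T' g x)) ⊤)] (j ⁻¹' B') := ⟨B', hB', rfl⟩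
    rw [MeasurableSpace.comap_iSup] at h1
    have h2 : (⨆ g, MeasurableSpace.comap j (MeasurableSpace.comap (fun x => l (T' g x)) ⊤)) =
        ⨆ g, MeasurableSpace.comap (fun z => l (j (T g z))) ⊤ := by
      refine iSup_congr fun g => ?_
      rw [MeasurableSpace.comap_comp]
      congr 1
      funext z
      simp [heq]
    rw [h2] at h1
    exact h1
  · refine hBB.trans ?_
    exact hj.quasiMeasurePreserving.preimage_ae_eq hBB'

end transfer

theorem antitone_lim (f : ℕ → ℝ) (hf : Antitone f) :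
    Tendsto (fun n => ((f n : ℝ) : EReal)) atTop (𝓝 (⨅ n, ((f n : ℝ) : EReal))) := by
  apply tendsto_atTop_iInf
  intro a b h
  exact EReal.coe_le_coe_iff.mpr (hf h)

theorem inf_le_inf (f g : ℕ → ℝ) (h : ∀ n, ∀ ε > 0, ∃ m, g m ≤ f n + ε) :
    (⨅ n, ((g n : ℝ) : EReal)) ≤ ⨅ n, ((f n : ℝ) : EReal) := by
  refine le_iInf fun n => ?_
  have key : ∀ ε : ℝ, 0 < ε → (⨅ n, ((g n : ℝ) : EReal)) ≤ ((f n + ε : ℝ) : EReal) := by
    intro ε hε
    obtain ⟨m, hm⟩ := h n ε hε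
    exact (iInf_le _ m).trans (EReal.coe_le_coe_iff.mpr hm)
  refine EReal.le_of_forall_lt_iff_le.mp ?_
  intro z hz
  have hz' : f n < z := EReal.coe_lt_coe_iff.mp hz
  have := key (z - f n) (by linarith)
  simpa using this

/-- the main theorem in terms of the working definitions -/
theorem main_working.{u, v, w} {r : ℕ} {X Y : Type u} [MeasurableSpace X] [StandardBorelSpace X]
    [MeasurableSpace Y] [StandardBorelSpace Y] (μ : Measure X) (ν : Measure Y)
    [IsProbabilityMeasure μ] [IsProbabilityMeasure ν]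
    [MulAction (FreeGroup (Fin r)) X] [MulAction (FreeGroup (Fin r)) Y]
    (hX : ∀ g : FreeGroup (Fin r), MeasurePreserving (fun x : X => g • x) μ μ)
    (hY : ∀ g : FreeGroup (Fin r), MeasurePreserving (fun y : Y => g • y) ν ν)
    (freeX : ∀ᵐ x ∂μ, ∀ g : FreeGroup (Fin r), g • x = x → g = 1)
    (freeY : ∀ᵐ y ∂ν, ∀ g : FreeGroup (Fin r), g • y = y → g = 1)
    (Φ : X → Y) (Ψ : Y → X) (hΦ : MeasurePreserving Φ μ ν) (hΨ : MeasurePreserving Ψ ν μ)
    (h1 : ∀ᵐ x ∂μ, Ψ (Φ x) = x) (h2 : ∀ᵐ y ∂ν, Φ (Ψ y) = y)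
    (horb : ∀ᵐ x ∂μ, Φ '' MulAction.orbit (FreeGroup (Fin r)) x =
      MulAction.orbit (FreeGroup (Fin r)) (Φ x))
    (α : FreeGroup (Fin r) → X → FreeGroup (Fin r)) (hα : ∀ᵐ x ∂μ, ∀ g, α g x • Φ x = Φ (g • x))
    (β : FreeGroup (Fin r) → Y → FreeGroup (Fin r)) (hβ : ∀ᵐ y ∂ν, ∀ g, β g y • Ψ y = Ψ (g • y))
    (hα2 : ∀ g, MemLp (fun x => ((α g x).norm : ℝ)) 2 μ)
    (hβ2 : ∀ g, MemLp (fun y => ((β g y).norm : ℝ)) 2 ν)
    {P : Type v} {P' : Type w} {φ : X → P} {φ' : Y → P'} (hφ : IsLab μ φ) (hφ' : IsLab ν φ')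
    (hgφ : Gen μ (fun (g : FreeGroup (Fin r)) (x : X) => g • x) φ)
    (hgφ' : Gen ν (fun (g : FreeGroup (Fin r)) (y : Y) => g • y) φ') :
    ∃ L : EReal, L ≠ ⊤ ∧
      Tendsto (fun n => ((BF μ (fun (g : FreeGroup (Fin r)) (x : X) => g • x)
        (ballLab (fun (g : FreeGroup (Fin r)) (x : X) => g • x) φ n) : ℝ) : EReal)) atTop (𝓝 L) ∧
      Tendsto (fun n => ((BF ν (fun (g : FreeGroup (Fin r)) (y : Y) => g • y)
        (ballLab (fun (g : FreeGroup (Fin r)) (y : Y) => g • y) φ' n) : ℝ) : EReal))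
        atTop (𝓝 L) := by
  obtain ⟨Z, i1, i2, m, i3, T, U, j, k, a, b, hT, hU, hTU, hUT, hj, hk, hjT, hkU, hjB, hkB, hb, ha,
    hb2, ha2⟩ := reduction μ ν hX hY freeX freeY Φ Ψ hΦ hΨ h1 h2 horb α hα β hβ 2 hα2 hβ2
  have lφ : IsLab m (fun z => φ (j z)) := (lab_comp hj hφ).1
  have lφ' : IsLab m (fun z => φ' (k z)) := (lab_comp hk hφ').1
  have gφ : Gen m T (fun z => φ (j z)) := Gen_transfer T _ j hj hjT hjB hgφ
  have gφ' : Gen m U (fun z => φ' (k z)) := Gen_transfer U _ k hk hkU hkB hgφ'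
  -- labels on balls
  have e1 : ∀ n, BF μ (fun (g : FreeGroup (Fin r)) (x : X) => g • x)
      (ballLab (fun (g : FreeGroup (Fin r)) (x : X) => g • x) φ n) =
      BF m T (ballLab T (fun z => φ (j z)) n) := by
    intro n
    have hl : IsLab μ (ballLab (fun (g : FreeGroup (Fin r)) (x : X) => g • x) φ n) := by
      have : Finite {k : FreeGroup (Fin r) // k.norm ≤ n} := (norm_finite r n).to_subtype
      have := Fintype.ofFinite {k : FreeGroup (Fin r) // k.norm ≤ n}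
      exact lab_pi (fun (k : {k : FreeGroup (Fin r) // k.norm ≤ n}) x => φ (k.1⁻¹ • x))
        (fun k => (lab_comp (hX k.1⁻¹) hφ).1)
    rw [← BF_transfer T (fun (g : FreeGroup (Fin r)) (x : X) => g • x) j hj hjT hX hl]
    congr 1
    funext z k
    simp only [ballLab, hjT]
  have e2 : ∀ n, BF ν (fun (g : FreeGroup (Fin r)) (x : Y) => g • x)
      (ballLab (fun (g : FreeGroup (Fin r)) (x : Y) => g • x) φ' n) =
      BF m U (ballLab U (fun z => φ' (k z)) n) := by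
    intro n
    have hl : IsLab ν (ballLab (fun (g : FreeGroup (Fin r)) (x : Y) => g • x) φ' n) := by
      have : Finite {k : FreeGroup (Fin r) // k.norm ≤ n} := (norm_finite r n).to_subtype
      have := Fintype.ofFinite {k : FreeGroup (Fin r) // k.norm ≤ n}
      exact lab_pi (fun (k : {k : FreeGroup (Fin r) // k.norm ≤ n}) x => φ' (k.1⁻¹ • x))
        (fun k => (lab_comp (hY k.1⁻¹) hφ').1)
    rw [← BF_transfer U (fun (g : FreeGroup (Fin r)) (x : Y) => g • x) k hk hkU hY hl]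
    congr 1
    funext z k
    simp only [ballLab, hkU]
  -- the two inequalities
  have c1 : ∀ n, ∀ ε > 0, ∃ n', BF m U (ballLab U (fun z => φ' (k z)) n') ≤
      BF m T (ballLab T (fun z => φ (j z)) n) + ε := by
    intro n ε hε
    letI := actOf U hU
    have hC : Common m T := ⟨hU.mp, hU.free, hT, fun g z => hTU g z, fun g z => hUT g z⟩
    exact cs T hC b hb hb2 a ha (fun i => (ha2 i).integrable (by norm_num)) lφ gφ lφ' gφ' n ε hε
  have c2 : ∀ n, ∀ ε > 0, ∃ n', BF m T (ballLab T (fun z => φ (j z)) n') ≤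
      BF m U (ballLab U (fun z => φ' (k z)) n) + ε := by
    intro n ε hε
    letI := actOf T hT
    have hC : Common m U := ⟨hT.mp, hT.free, hU, fun g z => hUT g z, fun g z => hTU g z⟩
    exact cs U hC a ha ha2 b hb (fun i => (hb2 i).integrable (by norm_num)) lφ' gφ' lφ gφ n ε hε
  have a1 := (BF_antitone T hT lφ).2
  have a2 := (BF_antitone U hU lφ').2
  have hL : (⨅ n, ((BF m T (ballLab T (fun z => φ (j z)) n) : ℝ) : EReal)) =
      ⨅ n, ((BF m U (ballLab U (fun z => φ' (k z)) n) : ℝ) : EReal) :=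
    le_antisymm (inf_le_inf _ _ c2) (inf_le_inf _ _ c1)
  refine ⟨⨅ n, ((BF m T (ballLab T (fun z => φ (j z)) n) : ℝ) : EReal), ?_, ?_, ?_⟩
  · exact ne_of_lt (lt_of_le_of_lt (iInf_le _ 0) (EReal.coe_lt_top _))
  · simp_rw [e1]
    exact antitone_lim _ a1
  · simp_rw [e2]
    rw [hL]
    exact antitone_lim _ a2

end Pool.Agent.TH722.FI
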