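import Mathlib

/-!
Shared definitions for the project the f-invariant is invariant under L^2 orbit equivalence
(MP_572a3e_an).
-/

namespace Pool.Agent.TH722.FI

open MeasureTheory Set Filter
open scoped Topology ENNReal

/-! ### Labels (countable partitions), information, entropy -/

section Labels

variable {X : Type*} [MeasurableSpace X] (μ : Measure X)

/-- mass of the cell of `x` in the partition given by the label `a` -/
noncomputable def mass {α : Type*} (a : X → α) (x : X) : ℝ := μ.real {y | a y = a x}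

/-- information function of the label `a` -/
noncomputable def info {α : Type*} (a : X → α) (x : X) : ℝ := - Real.log (mass μ a x)

/-- entropy of the label `a` -/
noncomputable def ent {α : Type*} (a : X → α) : ℝ := ∫ x, info μ a x ∂μ

/-- `a` is a measurable label with countably many values and finite entropy -/
structure IsLab {α : Type*} (a : X → α) : Prop where
  meas : ∀ c, MeasurableSet {x | a x = c}
  cnt : (Set.range a).Countable
  int : Integrable (info μ a) μ

/-- the label `a` is finer than the label `b` -/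
def Finer {α β : Type*} (a : X → α) (b : X → β) : Prop := ∀ x y, a x = a y → b x = b y

/-- mass of the joint cell of `x` inside `D` -/
noncomputable def jmass {α β : Type*} (D : Set X) (a : X → α) (b : X → β) (x : X) : ℝ :=
  μ.real {y | y ∈ D ∧ a y = a x ∧ b y = b x}

/-- integrand of the (restricted) mutual information -/
noncomputable def jfun {α β : Type*} (D : Set X) (a : X → α) (b : X → β) (x : X) : ℝ :=
  Real.log (jmass μ D a b x / (mass μ a x * mass μ b x))

/-- mutual information of `a` and `b` restricted to `D` -/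
noncomputable def J {α β : Type*} (D : Set X) (a : X → α) (b : X → β) : ℝ :=
  ∫ x in D, jfun μ D a b x ∂μ

open Classical in
/-- the label `c` on `E`, nothing outside -/
noncomputable def onSet {γ : Type*} (E : Set X) (c : X → γ) (x : X) : Option γ :=
  if x ∈ E then some (c x) else none

end Labels

/-! ### Graph families over a group action -/

section Families

variable {G X : Type*} [Group G] [MulAction G X] [MeasurableSpace X]

/-- `D g` is the set of all `x` such that `x` and `g • x` are adjacent -/
structure GF (D : G → Set X) (S : Finset G) : Prop where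
  meas : ∀ g, MeasurableSet (D g)
  symm : ∀ g x, x ∈ D g ↔ g • x ∈ D g⁻¹
  supp : ∀ g, g ∉ S → D g = ∅
  one : D 1 = ∅

/-- the functional `F` of a graph family and a label -/
noncomputable def F (μ : Measure X) {α : Type*} (S : Finset G) (D : G → Set X) (l : X → α) : ℝ :=
  ent μ l - (1 / 2) * ∑ g ∈ S, J μ (D g) l (fun x => l (g • x))

/-- the label determines the graph family -/
def Adapted {α : Type*} (D : G → Set X) (l : X → α) : Prop :=
  ∀ g x y, l x = l y → (x ∈ D g ↔ y ∈ D g)

/-- clusters `K x` (in orbit coordinates `g ↦ g • x`), over which two families differ -/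
structure ClusterPair (A B : G → Set X) (K : X → Finset G) (S : Finset G) : Prop where
  one_mem : ∀ x, (1 : G) ∈ K x
  inv : ∀ x, ∀ g ∈ K x, ∀ k, k ∈ K (g • x) ↔ k * g ∈ K x
  meas : ∀ P : Finset G, MeasurableSet {x | K x = P}
  bdd : ∀ x, K x ⊆ S
  ext : ∀ x g, g ∉ K x → (x ∈ A g ↔ x ∈ B g)
  conn : ∀ x, ∀ g ∈ K x,
    Relation.ReflTransGen (fun a b => b ∈ K x ∧ a • x ∈ A (b * a⁻¹)) 1 g
  cnt : ∀ x, Set.ncard {p : G × G | p.1 ∈ K x ∧ p.2 ∈ K x ∧ p.1 • x ∈ A (p.2 * p.1⁻¹)}
    = Set.ncard {p : G × G | p.1 ∈ K x ∧ p.2 ∈ K x ∧ p.1 • x ∈ B (p.2 * p.1⁻¹)}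

end Families

/-! ### Free group actions -/

section Free

variable {r : ℕ} {X : Type*} [MeasurableSpace X]

/-- Bowen's functional, for an action given as a function -/
noncomputable def BF (μ : Measure X) {α : Type*} (T : FreeGroup (Fin r) → X → X) (l : X → α) : ℝ :=
  (1 - 2 * (r : ℝ)) * ent μ l
    + ∑ i : Fin r, ent μ (fun x => (l x, l (T (FreeGroup.of i)⁻¹ x)))

/-- the label `φ^{T,B(n)}` -/
def ballLab {α : Type*} (T : FreeGroup (Fin r) → X → X) (l : X → α) (n : ℕ) (x : X) :
    {k : FreeGroup (Fin r) // k.norm ≤ n} → α := fun k => l (T k.1⁻¹ x)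

/-- a free pmp action of the free group, given as a function -/
structure FreeAct (μ : Measure X) (T : FreeGroup (Fin r) → X → X) : Prop where
  one : ∀ x, T 1 x = x
  mul : ∀ g h x, T (g * h) x = T g (T h x)
  mp : ∀ g, MeasurePreserving (T g) μ μ
  free : ∀ g x, T g x = x → g = 1

/-- `l` generates the sigma-algebra under `T`, modulo null sets -/
def Gen (μ : Measure X) {α : Type*} (T : FreeGroup (Fin r) → X → X) (l : X → α) : Prop :=
  ∀ B : Set X, MeasurableSet B → ∃ B' : Set X,
    MeasurableSet[⨆ g, MeasurableSpace.comap (fun x => l (T g x)) ⊤] B' ∧ B =ᵐ[μ] B'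

end Free

/-! ### Combinatorics of the hybrid tree -/

section Comb

variable {V : Type*}

/-- same block: joined by a path of `T` without `C`-edges -/
def Blk (T C : SimpleGraph V) (x y : V) : Prop := (T \ C).Reachable x y

/-- `x` is the nearest point (ties broken by `key`) of its block, seen from `u` -/
def Near (U T C : SimpleGraph V) (key : V → ℝ) (u x : V) : Prop :=
  ∀ w, Blk T C x w → U.dist u x < U.dist u w ∨ (U.dist u x = U.dist u w ∧ key x ≤ key w)

/-- the hybrid graph -/
def Hyb (U T C : SimpleGraph V) (key : V → ℝ) : SimpleGraph V where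
  Adj x y := C.Adj x y ∨
    (x ≠ y ∧ Blk T C x y ∧ ∃ u v, U.Adj u v ∧ Near U T C key u x ∧ Near U T C key v y)
  symm := ⟨by
    intro x y h
    rcases h with h | ⟨hne, hb, u, v, huv, hu, hv⟩
    · exact Or.inl h.symm
    · exact Or.inr ⟨hne.symm, SimpleGraph.Reachable.symm hb, v, u, huv.symm, hv, hu⟩⟩
  loopless := ⟨by
    intro x h
    rcases h with h | ⟨hne, _⟩
    · exact C.loopless.irrefl x h
    · exact hne rfl⟩

/-- the `T`-edge `{a,b}` is `M`-nice: it is short and only crossed by nearby `U`-edges -/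
def Nice (U T : SimpleGraph V) (M : ℕ) (a b : V) : Prop :=
  U.dist a b ≤ M ∧ ∀ u v, U.Adj u v → ¬ (T.deleteEdges {s(a, b)}).Reachable u v →
    U.dist u a ≤ M ∧ U.dist u b ≤ M

/-- balls of `U` are finite, with a bound on their size -/
def BallBd (U : SimpleGraph V) (N : ℕ → ℕ) : Prop :=
  ∀ (u : V) (n : ℕ), {v | U.dist u v ≤ n}.Finite ∧ {v | U.dist u v ≤ n}.ncard ≤ N n

/-- the convex hull of `B` in the tree `A` -/
def Hull (A : SimpleGraph V) (B : Set V) (z : V) : Prop :=
  ∃ p ∈ B, ∃ q ∈ B, A.dist p z + A.dist z q = A.dist p q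

/-- same cluster: equal, or both in the `A`-hull of one ball around a base point -/
def Clus (U A : SimpleGraph V) (N : Set V) (R : ℕ) (x y : V) : Prop :=
  x = y ∨ ∃ n ∈ N, Hull A {v | U.dist n v ≤ R} x ∧ Hull A {v | U.dist n v ≤ R} y

/-- the left Cayley graph of the free group -/
def CG (r : ℕ) : SimpleGraph (FreeGroup (Fin r)) where
  Adj a b := ∃ i : Fin r, b = FreeGroup.of i * a ∨ a = FreeGroup.of i * b
  symm := ⟨by
    rintro a b ⟨i, h | h⟩
    · exact ⟨i, Or.inr h⟩
    · exact ⟨i, Or.inl h⟩⟩
  loopless := ⟨by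
    rintro a ⟨i, h | h⟩ <;>
    · have h1 : FreeGroup.of i = 1 := by
        have := congrArg (fun t => t * a⁻¹) h
        simpa using this.symm
      exact FreeGroup.of_ne_one i h1⟩

end Comb

/-! ### The orbit graphs -/

section Orbit

variable {r : ℕ} {X : Type*} [MulAction (FreeGroup (Fin r)) X]

/-- the graph of the action `T`, in the coordinates `a ↦ a • x` -/
def TG (T : FreeGroup (Fin r) → X → X) (x : X) : SimpleGraph (FreeGroup (Fin r)) where
  Adj a b := a ≠ b ∧ ∃ i : Fin r,
    T (FreeGroup.of i) (a • x) = b • x ∨ T (FreeGroup.of i) (b • x) = a • x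
  symm := ⟨by
    rintro a b ⟨hne, i, h | h⟩
    · exact ⟨hne.symm, i, Or.inr h⟩
    · exact ⟨hne.symm, i, Or.inl h⟩⟩
  loopless := ⟨fun a h => h.1 rfl⟩

/-- the chosen edges of the action `T`: those issued from `E i` in direction `i` -/
def CC (T : FreeGroup (Fin r) → X → X) (E : Fin r → Set X) (x : X) :
    SimpleGraph (FreeGroup (Fin r)) where
  Adj a b := a ≠ b ∧ ∃ i : Fin r,
    (a • x ∈ E i ∧ T (FreeGroup.of i) (a • x) = b • x) ∨
      (b • x ∈ E i ∧ T (FreeGroup.of i) (b • x) = a • x)
  symm := ⟨by
    rintro a b ⟨hne, i, h | h⟩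
    · exact ⟨hne.symm, i, Or.inr h⟩
    · exact ⟨hne.symm, i, Or.inl h⟩⟩
  loopless := ⟨fun a h => h.1 rfl⟩

/-- the hybrid graph on the orbit of `x`, in the coordinates `a ↦ a • x` -/
def HG (T : FreeGroup (Fin r) → X → X) (E : Fin r → Set X) (key : X → ℝ) (x : X) :
    SimpleGraph (FreeGroup (Fin r)) :=
  Hyb (CG r) (TG T x) (CC T E x) (fun a => key (a • x))

/-- two free pmp actions (one is the `MulAction`, the other `T`) with the same orbits -/
structure Common [MeasurableSpace X] (μ : Measure X) (T : FreeGroup (Fin r) → X → X) : Prop where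
  mpU : ∀ g : FreeGroup (Fin r), MeasurePreserving (fun x : X => g • x) μ μ
  freeU : ∀ (g : FreeGroup (Fin r)) (x : X), g • x = x → g = 1
  actT : FreeAct μ T
  orb1 : ∀ g x, ∃ h : FreeGroup (Fin r), T g x = h • x
  orb2 : ∀ (g : FreeGroup (Fin r)) (x : X), ∃ h, g • x = T h x

end Orbit

end Pool.Agent.TH722.FI
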