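import Pool.Agent.TH480.FI.FI_LAB
import Pool.Agent.TH480.FI.FI_JMONO
namespace Pool.Agent.TH722.FI
open MeasureTheory Set Filter
open scoped Topology ENNReal

variable {X : Type*} [MeasurableSpace X] {μ : Measure X} [IsProbabilityMeasure μ] {α β γ : Type*}

theorem J_univ' {a : X → α} {b : X → β} (ha : IsLab μ a) (hb : IsLab μ b) :
    J μ univ a b = ent μ a + ent μ b - ent μ (fun x => (a x, b x)) := by
  have hp := (Pool.Agent.TH480.FI.lab_pair ha hb).1
  have h1 : ∀ᵐ x ∂μ, jfun μ univ a b x =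
      info μ a x + info μ b x - info μ (fun x => (a x, b x)) x := by
    have h2 := Pool.Agent.TH480.FI.ae_jmass_pos ha hb univ MeasurableSet.univ
    have h3 := Pool.Agent.TH480.FI.ae_mass_pos' (μ := μ) ha.meas ha.cnt univ
    have h4 := Pool.Agent.TH480.FI.ae_mass_pos' (μ := μ) hb.meas hb.cnt univ
    rw [Measure.restrict_univ] at h2 h3 h4
    filter_upwards [h2, h3, h4] with x a1 a2 a3
    rw [Pool.Agent.TH480.FI.jfun_eq a1 a2 a3]
    have : jmass μ univ a b x = mass μ (fun x => (a x, b x)) x := by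
      simp [jmass, mass]
    rw [this]
    have h5 : info μ (fun x => (a x, b x)) x = - Real.log (mass μ (fun x => (a x, b x)) x) := rfl
    rw [h5]
    ring
  have h2 : ∫ x, (info μ a x + info μ b x - info μ (fun x => (a x, b x)) x) ∂μ =
      (∫ x, (info μ a x + info μ b x) ∂μ) - ∫ x, info μ (fun x => (a x, b x)) x ∂μ :=
    integral_sub (ha.int.add hb.int) hp.int
  have h3 : ∫ x, (info μ a x + info μ b x) ∂μ = (∫ x, info μ a x ∂μ) + ∫ x, info μ b x ∂μ :=
    integral_add ha.int hb.int
  unfold J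
  rw [Measure.restrict_univ, integral_congr_ae h1, h2, h3]
  rfl

/-- strong subadditivity -/
theorem cond_mono {p : X → α} {q : X → β} {c : X → γ} (hp : IsLab μ p) (hq : IsLab μ q)
    (hc : IsLab μ c) (h : Finer p q) :
    ent μ (fun x => (p x, c x)) - ent μ p ≤ ent μ (fun x => (q x, c x)) - ent μ q := by
  have h1 := Pool.Agent.TH480.FI.J_mono univ MeasurableSet.univ hp hc h (fun x y h => h)
  rw [J_univ' hq hc, J_univ' hp hc] at h1
  linarith

end Pool.Agent.TH722.FI
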