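import Pool.Agent.TH722.AF.Base
namespace Pool.Agent.TH722.FI
open MeasureTheory Set Filter
open scoped Topology ENNReal
open Pool.Agent.TH722.AF (PmpAct)

section
variable {r : ℕ} {X : Type*} [MeasurableSpace X] {μ : Measure X}
  [IsProbabilityMeasure μ] {α β γ : Type*}

omit [IsProbabilityMeasure μ] in
theorem FreeAct.pmp {U : FreeGroup (Fin r) → X → X} (hU : FreeAct μ U) : PmpAct μ U :=
  ⟨hU.one, hU.mul, hU.mp⟩

/-- the `MulAction` attached to a function action -/
@[reducible] def actOf {μ : Measure X} (U : FreeGroup (Fin r) → X → X) (hU : FreeAct μ U) :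
    MulAction (FreeGroup (Fin r)) X where
  smul := U
  one_smul := hU.one
  mul_smul := hU.mul

theorem BF_split (U : FreeGroup (Fin r) → X → X) (hU : FreeAct μ U) {l : X → α} (hl : IsLab μ l)
    {c : X → γ} (hc : Finer l c) (i : Fin r) :
    BF μ U (fun x => (l x, c (U (FreeGroup.of i) x))) ≤ BF μ U l ∧
    BF μ U (fun x => (l x, c (U (FreeGroup.of i)⁻¹ x))) ≤ BF μ U l :=
  bf_split U hU.pmp hl hc i

theorem BF_join (U : FreeGroup (Fin r) → X → X) (hU : FreeAct μ U) {l : X → α} (hl : IsLab μ l)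
    {c : X → γ} (hc : IsLab μ c) :
    BF μ U (fun x => (l x, c x)) ≤ BF μ U l + (ent μ (fun x => (l x, c x)) - ent μ l) :=
  bf_join U hU.pmp hl hc

end
end Pool.Agent.TH722.FI
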