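import Pool.Agent.TH722.FI.JA
namespace Pool.Agent.TH722.FI
open MeasureTheory Set Filter Jobs
open scoped Topology ENNReal

section
variable {G X : Type*} [Group G] [MulAction G X] [MeasurableSpace X] {μ : Measure X}
  [IsProbabilityMeasure μ] {α β γ : Type*}

theorem F_chain_step (hact : ∀ g : G, MeasurePreserving (fun x : X => g • x) μ μ)
    (hfree : ∀ (g : G) (x : X), g • x = x → g = 1)
    (htf : ∀ g : G, g ≠ 1 → g⁻¹ ≠ g)
    (A B : G → Set X) (K : X → Finset G) (S : Finset G) (hA : GF A S) (hB : GF B S)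
    (hK : ClusterPair A B K S) {l : X → α} (hl : IsLab μ l) (hAl : Adapted A l)
    (hBl : Adapted B l) (hKl : ∀ x y, l x = l y → K x = K y) :
    ∃ l' : X → ℕ, IsLab μ l' ∧ Finer l' l ∧ F μ S B l' ≤ F μ S A l := by
  obtain ⟨l', h1, h2, h3, h4⟩ := F_close hact htf A B K S hA hK hl hAl hKl
  refine ⟨l', h1, h2, ?_⟩
  have := F_exchange hact hfree A B K S hA hB hK h1 (fun g x y h => hAl g x y (h2 x y h))
    (fun g x y h => hBl g x y (h2 x y h)) (fun x y h => hKl x y (h2 x y h)) h3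
  rw [← this]; exact h4

theorem F_chain (hact : ∀ g : G, MeasurePreserving (fun x : X => g • x) μ μ)
    (hfree : ∀ (g : G) (x : X), g • x = x → g = 1)
    (htf : ∀ g : G, g ≠ 1 → g⁻¹ ≠ g) (S : Finset G)
    (A : ℕ → G → Set X) (K : ℕ → X → Finset G) (q : ℕ) (hA : ∀ j ≤ q, GF (A j) S)
    (hK : ∀ j < q, ClusterPair (A (j + 1)) (A j) (K j) S) {l : X → ℕ} (hl : IsLab μ l)
    (hAl : ∀ j ≤ q, Adapted (A j) l) (hKl : ∀ j < q, ∀ x y, l x = l y → K j x = K j y) :
    ∃ l' : X → ℕ, IsLab μ l' ∧ Finer l' l ∧ F μ S (A 0) l' ≤ F μ S (A q) l := by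
  induction q generalizing l with
  | zero => exact ⟨l, hl, fun x y h => h, le_rfl⟩
  | succ q ih =>
    obtain ⟨l1, h1, h2, h3⟩ := F_chain_step hact hfree htf (A (q + 1)) (A q) (K q) S
      (hA _ le_rfl) (hA _ (Nat.le_succ q)) (hK q (Nat.lt_succ_self q)) hl (hAl _ le_rfl)
      (hAl _ (Nat.le_succ q)) (hKl q (Nat.lt_succ_self q))
    obtain ⟨l2, h4, h5, h6⟩ := ih (fun j hj => hA j (hj.trans (Nat.le_succ q)))
      (fun j hj => hK j (hj.trans (Nat.lt_succ_self q))) h1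
      (fun j hj g x y h => hAl j (hj.trans (Nat.le_succ q)) g x y (h2 x y h))
      (fun j hj x y h => hKl j (hj.trans (Nat.lt_succ_self q)) x y (h2 x y h))
    exact ⟨l2, h4, fun x y h => h2 x y (h5 x y h), h6.trans h3⟩
end
end Pool.Agent.TH722.FI
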