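import Pool.Agent.TH722.FI.Defs
import Pool.Agent.TH75.FI_CONTRACT
import Pool.Agent.TH75.FI_GLUE
import Pool.Agent.TH267.FI_GEO
import Pool.Agent.TH365.FI_CELL
import Pool.Agent.TH365.FI_HYBTREE
import Pool.Agent.TH113.FI_HYBDIST
import Pool.Agent.TH606.FI_LOCAL
import Pool.Agent.TH606.FI_CLUS
import Pool.Agent.TH611.FI_NAT
import Pool.Agent.TH611.FI_CAYLEY
import Pool.Agent.TH611.FI_TGT
import Pool.Agent.TH929.FI.Meas
import Pool.Agent.TH124.FI.Cross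
import Pool.Agent.TH113.FI_NAMES
import Pool.Agent.TH929.FI.Lambda
namespace Pool.Agent.TH722.FI.Jobs
open MeasureTheory Set Filter Pool.Agent.TH722.FI
open scoped Topology ENNReal

section Trees
variable {V W : Type*}

-- CONTRACT
theorem contract (U : SimpleGraph V) (hU : U.IsTree) (p : V → W) (hp : Function.Surjective p)
    (hc : ∀ w, (U.induce (p ⁻¹' {w})).Connected) (H : SimpleGraph W)
    (hH : ∀ w w', H.Adj w w' ↔ w ≠ w' ∧ ∃ u v, U.Adj u v ∧ p u = w ∧ p v = w') : H.IsTree := Pool.Agent.TH75.FI.contract U hU p hp hc H hH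

-- GLUE
theorem glue (A B : SimpleGraph V) (hA : A.IsTree) (R : V → V → Prop) (hR : Equivalence R)
    (hconn : ∀ x, (A.induce {z | R x z}).Connected)
    (hext : ∀ x y, ¬ R x y → (A.Adj x y ↔ B.Adj x y)) :
    ((∀ x, (B.induce {z | R x z}).IsTree) → B.IsTree) ∧
    (B.Connected → ∀ x, (B.induce {z | R x z}).Connected) := Pool.Agent.TH75.FI.glue A B hA R hR hconn hext
theorem glue_count (A B : SimpleGraph V) (hA : A.IsTree) (hB : B.IsTree) (R : V → V → Prop)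
    (hR : Equivalence R) (hconn : ∀ x, (A.induce {z | R x z}).Connected)
    (hext : ∀ x y, ¬ R x y → (A.Adj x y ↔ B.Adj x y)) (x : V) (hfin : {z | R x z}.Finite) :
    Set.ncard {p : V × V | R x p.1 ∧ R x p.2 ∧ A.Adj p.1 p.2} =
      Set.ncard {p : V × V | R x p.1 ∧ R x p.2 ∧ B.Adj p.1 p.2} := Pool.Agent.TH75.FI.glue_count A B hA hB R hR hconn hext x hfin

-- GEO
theorem block_geo (U T C : SimpleGraph V) (hU : U.IsTree) (hT : T.IsTree) (hC : C ≤ T)
    (key : V → ℝ) (hkey : Function.Injective key) (x y u v : V) (hxy : x ≠ y) (hb : Blk T C x y)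
    (huv : U.Adj u v) (hu : Near U T C key u x) (hv : Near U T C key v y) :
    U.dist v x = U.dist u x + 1 ∧ U.dist u y = U.dist v y + 1 ∧
    U.dist x y = U.dist u x + 1 + U.dist v y ∧
    (∃ a b, T.Adj a b ∧ ¬ C.Adj a b ∧ Blk T C x a ∧
      ¬ (U.deleteEdges {s(u, v)}).Reachable a b ∧ U.dist x y ≤ U.dist a b) ∧
    (∀ M, (∀ a b, C.Adj a b → Nice U T M a b) → U.dist u x ≤ M ∧ U.dist v y ≤ M) := Pool.Agent.TH267.FI.block_geo U T C hU hT hC key hkey x y u v hxy hb huv hu hv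

-- CELL
theorem near_exists (U T C : SimpleGraph V) (hU : U.IsTree) (hT : T.IsTree) (hC : C ≤ T)
    (N : ℕ → ℕ) (hN : BallBd U N)
    (key : V → ℝ) (hkey : Function.Injective key) (u w : V) :
    ∃! x, Blk T C w x ∧ Near U T C key u x := Pool.Agent.TH365.FI.near_exists U T C hU hT hC N hN key hkey u w
theorem cell_connected (U T C : SimpleGraph V) (hU : U.IsTree) (hT : T.IsTree) (hC : C ≤ T)
    (key : V → ℝ) (x : V) : (U.induce {u | Near U T C key u x}).Connected := Pool.Agent.TH365.FI.cell_connected U T C hU hT hC key x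

-- HYBTREE
theorem hyb_tree (U T C : SimpleGraph V) (hU : U.IsTree) (hT : T.IsTree) (hC : C ≤ T)
    (N : ℕ → ℕ) (hN : BallBd U N) (key : V → ℝ) (hkey : Function.Injective key) :
    (Hyb U T C key).IsTree ∧ (∀ x, ((Hyb U T C key).induce {z | Blk T C x z}).IsTree) ∧
    (∀ x y, C.Adj x y → ¬ Blk T C x y) := Pool.Agent.TH365.FI.hyb_tree U T C hU hT hC N hN key hkey
theorem hyb_bot (U T : SimpleGraph V) (hU : U.IsTree) (hT : T.IsTree) (key : V → ℝ)
    (hkey : Function.Injective key) : Hyb U T ⊥ key = U := Pool.Agent.TH365.FI.hyb_bot U T hU hT key hkey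

-- HYBDIST
theorem hyb_dist_block (U T C : SimpleGraph V) (hU : U.IsTree) (hT : T.IsTree) (hC : C ≤ T)
    (N : ℕ → ℕ) (hN : BallBd U N) (key : V → ℝ) (hkey : Function.Injective key) (x y : V)
    (h : Blk T C x y) : (Hyb U T C key).Reachable x y ∧ (Hyb U T C key).dist x y ≤ U.dist x y := Pool.Agent.TH113.FIHybdist.hyb_dist_block U T C hU hT hC N hN key hkey x y h
theorem hyb_dist (U T C : SimpleGraph V) (hU : U.IsTree) (hT : T.IsTree) (hC : C ≤ T)
    (N : ℕ → ℕ) (hN : BallBd U N) (key : V → ℝ) (hkey : Function.Injective key) (M : ℕ)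
    (hM : 1 ≤ M) (hnice : ∀ a b, C.Adj a b → Nice U T M a b) :
    (∀ u v, U.Adj u v → (Hyb U T C key).dist u v ≤ N M * (2 * M + 1)) ∧
    (∀ x y, (Hyb U T C key).Adj x y → U.dist x y ≤ 2 * M + 1) := Pool.Agent.TH113.FIHybdist.hyb_dist U T C hU hT hC N hN key hkey M hM hnice

-- LOCAL
theorem hyb_local (U T C C' : SimpleGraph V) (hU : U.IsTree) (hT : T.IsTree) (hCC : C ≤ C')
    (hC : C' ≤ T) (N : ℕ → ℕ) (hN : BallBd U N) (key : V → ℝ) (hkey : Function.Injective key)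
    (M : ℕ) (hnice : ∀ a b, C'.Adj a b → Nice U T M a b) (x y : V)
    (hne : ¬ ((Hyb U T C key).Adj x y ↔ (Hyb U T C' key).Adj x y)) :
    ∃ a b, C'.Adj a b ∧ ¬ C.Adj a b ∧ U.dist x a ≤ 5 * M + 1 ∧ U.dist x b ≤ 5 * M + 1 := Pool.Agent.TH606.FI.hyb_local U T C C' hU hT hCC hC N hN key hkey M hnice x y hne

-- CLUS
theorem clus (U T C C' : SimpleGraph V) (hU : U.IsTree) (hT : T.IsTree) (hCC : C ≤ C')
    (hC : C' ≤ T) (N : ℕ → ℕ) (hN : BallBd U N) (key : V → ℝ) (hkey : Function.Injective key)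
    (M : ℕ) (hM : 1 ≤ M) (hnice : ∀ a b, C'.Adj a b → Nice U T M a b)
    (P : Set V) (hP : ∀ a b, C'.Adj a b → ¬ C.Adj a b → a ∈ P ∨ b ∈ P)
    (R2 R3 : ℕ) (hR2 : R2 = 7 * M + 2) (hR3 : R3 = R2 + 2 * R2 * (N M * (2 * M + 1)) * (2 * M + 1))
    (hsep : ∀ a ∈ P, ∀ b ∈ P, U.dist a b ≤ 2 * R3 → a = b) :
    Equivalence (Clus U (Hyb U T C' key) P R2) ∧
    (∀ x, ((Hyb U T C' key).induce {z | Clus U (Hyb U T C' key) P R2 x z}).Connected) ∧
    (∀ x y, ¬ Clus U (Hyb U T C' key) P R2 x y →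
      ((Hyb U T C' key).Adj x y ↔ (Hyb U T C key).Adj x y)) ∧
    (∀ x y, Clus U (Hyb U T C' key) P R2 x y → U.dist x y ≤ 2 * R3) := Pool.Agent.TH606.FI.clus U T C C' hU hT hCC hC N hN key hkey M hM hnice P hP R2 R3 hR2 hR3 hsep

-- NAT
theorem hyb_nat {V V' : Type*} (e : V ≃ V') (U T C : SimpleGraph V) (U' T' C' : SimpleGraph V')
    (hU : ∀ a b, U'.Adj (e a) (e b) ↔ U.Adj a b) (hT : ∀ a b, T'.Adj (e a) (e b) ↔ T.Adj a b)
    (hC : ∀ a b, C'.Adj (e a) (e b) ↔ C.Adj a b) (key : V → ℝ) (key' : V' → ℝ)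
    (hk : ∀ a, key' (e a) = key a) :
    (∀ a b, (Hyb U' T' C' key').Adj (e a) (e b) ↔ (Hyb U T C key).Adj a b) ∧
    (∀ M a b, Nice U' T' M (e a) (e b) ↔ Nice U T M a b) ∧
    (∀ a b, Blk T' C' (e a) (e b) ↔ Blk T C a b) ∧
    (∀ a b, Near U' T' C' key' (e a) (e b) ↔ Near U T C key a b) ∧
    (∀ (P : Set V) (P' : Set V') (_ : ∀ a, e a ∈ P' ↔ a ∈ P) (R : ℕ) (a b : V),
      Clus U' (Hyb U' T' C' key') P' R (e a) (e b) ↔ Clus U (Hyb U T C key) P R a b) := Pool.Agent.TH611.FI.hyb_nat e U T C U' T' C' hU hT hC key key' hk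

-- CAYLEY
theorem cg_tree (r : ℕ) : (CG r).IsTree ∧
    (∀ a b : FreeGroup (Fin r), (CG r).dist a b = (b * a⁻¹).norm) ∧
    (∀ a b h : FreeGroup (Fin r), (CG r).Adj (a * h) (b * h) ↔ (CG r).Adj a b) ∧
    (∃ N : ℕ → ℕ, BallBd (CG r) N) := Pool.Agent.TH611.FI.cg_tree r
end Trees

section Orbit
variable {r : ℕ} {X : Type*} [MeasurableSpace X] {μ : Measure X}
  [IsProbabilityMeasure μ] [MulAction (FreeGroup (Fin r)) X]

-- TGT
theorem tg_tree (T : FreeGroup (Fin r) → X → X) (hC : Common μ T) (x : X) :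
    (TG T x).IsTree ∧
    (∀ g h : FreeGroup (Fin r), T h x = g • x → (TG T x).dist 1 g = h.norm) ∧
    (∀ (E : Fin r → Set X), CC T E x ≤ TG T x) ∧
    (∀ h a b : FreeGroup (Fin r), (TG T (h • x)).Adj a b ↔ (TG T x).Adj (a * h) (b * h)) ∧
    (∀ (E : Fin r → Set X) (h a b : FreeGroup (Fin r)),
      (CC T E (h • x)).Adj a b ↔ (CC T E x).Adj (a * h) (b * h)) := Pool.Agent.TH611.FI.tg_tree T hC x

-- MEAS
theorem hg_meas [StandardBorelSpace X] (T : FreeGroup (Fin r) → X → X) (hC : Common μ T)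
    (E : Fin r → Set X) (hE : ∀ i, MeasurableSet (E i)) (key : X → ℝ) (hkey : Measurable key)
    (a b : FreeGroup (Fin r)) :
    MeasurableSet {x | (TG T x).Adj a b} ∧ MeasurableSet {x | (CC T E x).Adj a b} ∧
    MeasurableSet {x | Blk (TG T x) (CC T E x) a b} ∧
    MeasurableSet {x | Near (CG r) (TG T x) (CC T E x) (fun g => key (g • x)) a b} ∧
    MeasurableSet {x | (HG T E key x).Adj a b} ∧
    (∀ M, MeasurableSet {x | Nice (CG r) (TG T x) M a b}) ∧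
    (∀ (Q : Set X) (_ : MeasurableSet Q) (R : ℕ),
      MeasurableSet {x | Clus (CG r) (HG T E key x) {g | g • x ∈ Q} R a b}) := Pool.Agent.TH929.FI.hg_meas T hC E hE key hkey a b

-- CROSS
theorem nice_exhaust [StandardBorelSpace X] (T : FreeGroup (Fin r) → X → X) (hC : Common μ T)
    (α : Fin r → X → FreeGroup (Fin r)) (hα : ∀ i x, FreeGroup.of i • x = T (α i x) x)
    (hα1 : ∀ i, Integrable (fun x => ((α i x).norm : ℝ)) μ) (δ : ℝ) (hδ : 0 < δ) :
    ∃ M0, ∀ M ≥ M0, ∀ i : Fin r,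
      μ.real {x | ∃ b : FreeGroup (Fin r), T (FreeGroup.of i) x = b • x ∧
        ¬ Nice (CG r) (TG T x) M 1 b} ≤ δ := Pool.Agent.TH124.FI.nice_exhaust T hC α hα hα1 δ hδ

-- NAMES
theorem names [StandardBorelSpace X]
    (hact : ∀ g : FreeGroup (Fin r), MeasurePreserving (fun x : X => g • x) μ μ)
    (hfree : ∀ (g : FreeGroup (Fin r)) (x : X), g • x = x → g = 1)
    (B : Finset (FreeGroup (Fin r))) (δ : ℝ) (hδ : 0 < δ) :
    ∃ (q : ℕ) (ν : X → Fin q), Measurable ν ∧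
      μ.real {x | ∃ g ∈ B, g ≠ 1 ∧ ν (g • x) = ν x} ≤ δ := Pool.Agent.TH113.FINames.names hact hfree B δ hδ

-- LAMBDA
theorem block_bound [StandardBorelSpace X] (T : FreeGroup (Fin r) → X → X) (hC : Common μ T)
    (E : Fin r → Set X) (hE : ∀ i, MeasurableSet (E i)) (key : X → ℝ) (hkey : Measurable key)
    (hki : Function.Injective key)
    (β : Fin r → X → FreeGroup (Fin r)) (hβ : ∀ i x, T (FreeGroup.of i) x = β i x • x)
    (hβ2 : ∀ i, MemLp (fun x => ((β i x).norm : ℝ)) 2 μ) (S : Finset (FreeGroup (Fin r))) :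
    ∑ g ∈ S, μ.real {x | (HG T E key x).Adj 1 g ∧ ¬ (CC T E x).Adj 1 g} * ((g.norm : ℝ) + 1) ≤
      ∑ i, ∫ x in (E i)ᶜ, (((β i x).norm : ℝ) + 1) * (2 * ((β i x).norm : ℝ)) ∂μ := Pool.Agent.TH929.FI.block_bound T hC E hE key hkey hki β hβ hβ2 S
end Orbit
end Pool.Agent.TH722.FI.Jobs
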