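import Pool.Agent.TH722.FI.JA
import Pool.Agent.TH722.FI.JC
import Pool.Agent.TH722.FI.BF
namespace Pool.Agent.TH722.FI
open MeasureTheory Set Filter Jobs
open scoped Topology ENNReal

section
variable {r : ℕ} {X : Type*} [MeasurableSpace X] {μ : Measure X}
  [IsProbabilityMeasure μ] [MulAction (FreeGroup (Fin r)) X]

theorem hg_nat (T : FreeGroup (Fin r) → X → X) (hC : Common μ T) (E : Fin r → Set X) (key : X → ℝ)
    (x : X) (h : FreeGroup (Fin r)) :
    (∀ a b, (HG T E key (h • x)).Adj a b ↔ (HG T E key x).Adj (a * h) (b * h)) ∧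
    (∀ M a b, Nice (CG r) (TG T (h • x)) M a b ↔ Nice (CG r) (TG T x) M (a * h) (b * h)) ∧
    (∀ (Q : Set X) (R : ℕ) a b, Clus (CG r) (HG T E key (h • x)) {g | g • h • x ∈ Q} R a b ↔
      Clus (CG r) (HG T E key x) {g | g • x ∈ Q} R (a * h) (b * h)) := by
  obtain ⟨-, -, h3, -⟩ := cg_tree r
  obtain ⟨-, -, -, h4, h5⟩ := tg_tree T hC x
  obtain ⟨n1, n2, -, -, n5⟩ := hyb_nat (Equiv.mulRight h) (CG r) (TG T (h • x)) (CC T E (h • x))
    (CG r) (TG T x) (CC T E x) (fun a b => by simpa using h3 a b h)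
    (fun a b => by simpa using (h4 h a b).symm) (fun a b => by simpa using (h5 E h a b).symm)
    (fun a => key (a • h • x)) (fun a => key (a • x))
    (fun a => by simp [mul_smul])
  refine ⟨fun a b => ?_, fun M a b => ?_, fun Q R a b => ?_⟩
  · simpa [HG] using (n1 a b).symm
  · simpa using (n2 M a b).symm
  · have := n5 {g | g • h • x ∈ Q} {g | g • x ∈ Q} (fun a => by simp [mul_smul]) R a b
    simpa [HG] using this.symm

theorem nice_symm {V : Type*} (U T : SimpleGraph V) (M : ℕ) (a b : V) (h : Nice U T M a b) :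
    Nice U T M b a := by
  refine ⟨by rw [SimpleGraph.dist_comm]; exact h.1, fun u v huv hn => ?_⟩
  have h2 := h.2 u v huv (by rwa [Sym2.eq_swap] at hn)
  exact ⟨h2.2, h2.1⟩

/-- reversed description of the chosen edges at `1` -/
theorem cc_one (T : FreeGroup (Fin r) → X → X) (hC : Common μ T) (E : Fin r → Set X) (x : X)
    (g : FreeGroup (Fin r)) : (CC T E x).Adj 1 g ↔
      ∃ i, (x ∈ E i ∧ T (FreeGroup.of i) x = g • x) ∨
      (T (FreeGroup.of i)⁻¹ x ∈ E i ∧ T (FreeGroup.of i)⁻¹ x = g • x) := by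
  have hcan : ∀ (k : FreeGroup (Fin r)) (y : X), T k⁻¹ (T k y) = y := by
    intro k y; rw [← hC.actT.mul, inv_mul_cancel, hC.actT.one]
  have hcan' : ∀ (k : FreeGroup (Fin r)) (y : X), T k (T k⁻¹ y) = y := by
    intro k y; rw [← hC.actT.mul, mul_inv_cancel, hC.actT.one]
  constructor
  · rintro ⟨-, i, h | h⟩
    · exact ⟨i, Or.inl (by simpa using h)⟩
    · refine ⟨i, Or.inr ?_⟩
      simp only [one_smul] at h
      have : T (FreeGroup.of i)⁻¹ x = g • x := by
        calc T (FreeGroup.of i)⁻¹ x = T (FreeGroup.of i)⁻¹ (T (FreeGroup.of i) (g • x)) := by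
              rw [h.2]
          _ = g • x := hcan _ _
      exact ⟨by rw [this]; exact h.1, this⟩
  · rintro ⟨i, h | h⟩
    · refine ⟨?_, i, Or.inl (by simpa using h)⟩
      rintro rfl
      rw [one_smul] at h
      exact FreeGroup.of_ne_one i (hC.actT.free _ _ h.2)
    · refine ⟨?_, i, Or.inr ?_⟩
      · rintro rfl
        rw [one_smul] at h
        exact FreeGroup.of_ne_one i (inv_eq_one.mp (hC.actT.free _ _ h.2))
      · simp only [one_smul]
        exact ⟨by rw [← h.2]; exact h.1, by rw [← h.2, hcan']⟩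

end
end Pool.Agent.TH722.FI
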