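import Pool.Agent.TH722.FI.HP1
namespace Pool.Agent.TH722.FI
open MeasureTheory Set Filter Jobs
open scoped Topology ENNReal

section
variable {r : ℕ} {X : Type*} [MeasurableSpace X] {μ : Measure X}
  [IsProbabilityMeasure μ] [MulAction (FreeGroup (Fin r)) X]

theorem norm_finite (r n : ℕ) : {g : FreeGroup (Fin r) | g.norm ≤ n}.Finite := by
  obtain ⟨-, h2, -, N, hN⟩ := cg_tree r
  refine (hN 1 n).1.subset ?_
  intro g hg
  simp only [mem_setOf_eq, h2, inv_one, mul_one] at hg ⊢
  exact hg

/-- the family attached to the hybrid graph -/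
def HD (T : FreeGroup (Fin r) → X → X) (E : Fin r → Set X) (key : X → ℝ)
    (g : FreeGroup (Fin r)) : Set X := {x | (HG T E key x).Adj 1 g}

theorem hd_mem (T : FreeGroup (Fin r) → X → X) (hC : Common μ T) (E : Fin r → Set X)
    (key : X → ℝ) (x : X) (a b : FreeGroup (Fin r)) :
    a • x ∈ HD T E key (b * a⁻¹) ↔ (HG T E key x).Adj a b := by
  have := (hg_nat T hC E key x a).1 1 (b * a⁻¹)
  simpa [HD] using this

/-- the chosen edges are `M`-nice -/
theorem cc_nice (T : FreeGroup (Fin r) → X → X) (hC : Common μ T) (E : Fin r → Set X) (M : ℕ)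
    (hE : ∀ i, ∀ x ∈ E i, ∀ b, T (FreeGroup.of i) x = b • x → Nice (CG r) (TG T x) M 1 b)
    (x : X) (a b : FreeGroup (Fin r)) (h : (CC T E x).Adj a b) : Nice (CG r) (TG T x) M a b := by
  have key : ∀ (i : Fin r) (a b : FreeGroup (Fin r)), a • x ∈ E i →
      T (FreeGroup.of i) (a • x) = b • x → Nice (CG r) (TG T x) M a b := by
    intro i a b h1 h2
    have h3 := hE i (a • x) h1 (b * a⁻¹) (by rw [h2, smul_smul, inv_mul_cancel_right])
    have h4 := ((hg_nat T hC E (fun _ => 0) x a).2.1 M 1 (b * a⁻¹)).mp h3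
    simpa using h4
  obtain ⟨-, i, h | h⟩ := h
  · exact key i a b h.1 h.2
  · exact nice_symm _ _ _ _ _ (key i b a h.1 h.2)

theorem key_inj (hfree : ∀ (g : FreeGroup (Fin r)) (x : X), g • x = x → g = 1)
    (key : X → ℝ) (hk : Function.Injective key) (x : X) :
    Function.Injective (fun a : FreeGroup (Fin r) => key (a • x)) := by
  intro a b h
  have h1 : a • x = b • x := hk h
  have h2 : (b⁻¹ * a) • x = x := by rw [mul_smul, h1, inv_smul_smul]
  have h3 := hfree _ _ h2
  exact (inv_mul_eq_one.mp h3).symm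

theorem hd_GF [StandardBorelSpace X] (T : FreeGroup (Fin r) → X → X) (hC : Common μ T)
    (E : Fin r → Set X) (hEm : ∀ i, MeasurableSet (E i))
    (key : X → ℝ) (hkm : Measurable key) (hki : Function.Injective key) (M : ℕ) (hM : 1 ≤ M)
    (hE : ∀ i, ∀ x ∈ E i, ∀ b, T (FreeGroup.of i) x = b • x → Nice (CG r) (TG T x) M 1 b)
    (S : Finset (FreeGroup (Fin r))) (hS : ∀ g : FreeGroup (Fin r), g.norm ≤ 2 * M + 1 → g ∈ S) :
    GF (HD T E key) S where
  meas := fun g => (hg_meas T hC E hEm key hkm 1 g).2.2.2.2.1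
  symm := by
    intro g x
    have h1 := hd_mem T hC E key x g 1
    have h2 : (x ∈ HD T E key g) = (HG T E key x).Adj 1 g := rfl
    rw [one_mul] at h1
    rw [h1, h2]
    exact ⟨fun h => h.symm, fun h => h.symm⟩
  supp := by
    intro g hg
    ext x
    simp only [mem_empty_iff_false, iff_false]
    intro hx
    apply hg
    apply hS
    obtain ⟨c1, c2, -, N, hN⟩ := cg_tree r
    obtain ⟨t1, -, t3, -⟩ := tg_tree T hC x
    have := (hyb_dist (CG r) (TG T x) (CC T E x) c1 t1 (t3 E) N hN (fun a => key (a • x))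
      (key_inj hC.freeU key hki x) M hM (cc_nice T hC E M hE x)).2 1 g hx
    simpa [c2] using this
  one := by
    ext x
    simp only [mem_empty_iff_false, iff_false]
    intro hx
    exact (HG T E key x).loopless.irrefl 1 hx

theorem hd_empty (T : FreeGroup (Fin r) → X → X) (hC : Common μ T)
    (key : X → ℝ) (hki : Function.Injective key) (E : Fin r → Set X) (hE : ∀ i, E i = ∅) :
    HD T E key = CayD X r := by
  funext g
  ext x
  obtain ⟨c1, c2, -, N, hN⟩ := cg_tree r
  obtain ⟨t1, -, t3, -⟩ := tg_tree T hC x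
  have h0 : CC T E x = ⊥ := by
    ext a b
    simp [CC, hE]
  have h1 : HG T E key x = CG r := by
    unfold HG
    rw [h0]
    exact hyb_bot (CG r) (TG T x) c1 t1 _ (key_inj hC.freeU key hki x)
  simp only [HD, CayD, mem_setOf_eq, h1, CG]
  constructor
  · rintro ⟨i, h | h⟩
    · exact ⟨i, Or.inl (by simpa using h)⟩
    · exact ⟨i, Or.inr (eq_inv_of_mul_eq_one_right h.symm)⟩
  · rintro ⟨i, h | h⟩
    · exact ⟨i, Or.inl (by simpa using h)⟩
    · exact ⟨i, Or.inr (by rw [h, mul_inv_cancel])⟩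

theorem hd_conn (T : FreeGroup (Fin r) → X → X) (hC : Common μ T)
    (E : Fin r → Set X) (key : X → ℝ) (hki : Function.Injective key)
    (x : X) (g : FreeGroup (Fin r)) :
    Relation.ReflTransGen (fun y z => ∃ k : FreeGroup (Fin r), y ∈ HD T E key k ∧ z = k • y)
      x (g • x) := by
  obtain ⟨c1, c2, -, N, hN⟩ := cg_tree r
  obtain ⟨t1, -, t3, -⟩ := tg_tree T hC x
  have ht := (hyb_tree (CG r) (TG T x) (CC T E x) c1 t1 (t3 E) N hN (fun a => key (a • x))
      (key_inj hC.freeU key hki x)).1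
  have h1 : (HG T E key x).Reachable 1 g := ht.connected.preconnected 1 g
  rw [SimpleGraph.reachable_iff_reflTransGen] at h1
  have key2 : ∀ b, Relation.ReflTransGen (HG T E key x).Adj 1 b →
      Relation.ReflTransGen (fun y z => ∃ k : FreeGroup (Fin r), y ∈ HD T E key k ∧ z = k • y)
      x (b • x) := by
    intro b hb
    induction hb with
    | refl => rw [one_smul]
    | @tail b c _ h ih =>
      refine ih.tail ⟨c * b⁻¹, (hd_mem T hC E key x b c).mpr h, ?_⟩
      rw [smul_smul, inv_mul_cancel_right]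
  exact key2 g h1

end
end Pool.Agent.TH722.FI
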