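import Pool.Agent.TH722.FI.HP2
namespace Pool.Agent.TH722.FI
open MeasureTheory Set Filter Jobs
open scoped Topology ENNReal

section
variable {r : ℕ} {X : Type*} [MeasurableSpace X] {μ : Measure X}
  [IsProbabilityMeasure μ] [MulAction (FreeGroup (Fin r)) X]

theorem hd_cluster [StandardBorelSpace X] (T : FreeGroup (Fin r) → X → X) (hC : Common μ T)
    (E E' : Fin r → Set X) (hEm : ∀ i, MeasurableSet (E i)) (hEm' : ∀ i, MeasurableSet (E' i))
    (hEE : ∀ i, E i ⊆ E' i)
    (key : X → ℝ) (hkm : Measurable key) (hki : Function.Injective key) (M : ℕ) (hM : 1 ≤ M)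
    (hE : ∀ i, ∀ x ∈ E' i, ∀ b, T (FreeGroup.of i) x = b • x → Nice (CG r) (TG T x) M 1 b)
    (N : ℕ → ℕ) (hN : BallBd (CG r) N) (R2 R3 : ℕ) (hR2 : R2 = 7 * M + 2)
    (hR3 : R3 = R2 + 2 * R2 * (N M * (2 * M + 1)) * (2 * M + 1))
    (Q : Set X) (hQm : MeasurableSet Q) (hQ : ∀ i, ∀ x ∈ E' i, x ∉ E i → x ∈ Q)
    (hsep : ∀ x ∈ Q, ∀ g : FreeGroup (Fin r), g.norm ≤ 2 * R3 → g • x ∈ Q → g = 1)
    (S : Finset (FreeGroup (Fin r))) (hS : ∀ g : FreeGroup (Fin r), g.norm ≤ 2 * R3 → g ∈ S) :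
    ∃ K : X → Finset (FreeGroup (Fin r)), ClusterPair (HD T E' key) (HD T E key) K S := by
  classical
  obtain ⟨c1, c2, c3, -⟩ := cg_tree r
  -- all the facts about clusters, at each point
  have facts : ∀ x : X,
      Equivalence (Clus (CG r) (HG T E' key x) {g | g • x ∈ Q} R2) ∧
      (∀ a, ((HG T E' key x).induce
        {z | Clus (CG r) (HG T E' key x) {g | g • x ∈ Q} R2 a z}).Connected) ∧
      (∀ a b, ¬ Clus (CG r) (HG T E' key x) {g | g • x ∈ Q} R2 a b →
        ((HG T E' key x).Adj a b ↔ (HG T E key x).Adj a b)) ∧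
      (∀ a b, Clus (CG r) (HG T E' key x) {g | g • x ∈ Q} R2 a b →
        (CG r).dist a b ≤ 2 * R3) := by
    intro x
    obtain ⟨t1, -, t3, -⟩ := tg_tree T hC x
    have hle : CC T E x ≤ CC T E' x := by
      intro a b h
      obtain ⟨hne, i, h | h⟩ := h
      · exact ⟨hne, i, Or.inl ⟨hEE i h.1, h.2⟩⟩
      · exact ⟨hne, i, Or.inr ⟨hEE i h.1, h.2⟩⟩
    refine clus (CG r) (TG T x) (CC T E x) (CC T E' x) c1 t1 hle (t3 E') N hN
      (fun a => key (a • x)) (key_inj hC.freeU key hki x) M hM (cc_nice T hC E' M hE x)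
      {g | g • x ∈ Q} ?_ R2 R3 hR2 hR3 ?_
    · intro a b hab hnab
      obtain ⟨hne, i, h | h⟩ := hab
      · left
        apply hQ i _ h.1
        intro h'
        exact hnab ⟨hne, i, Or.inl ⟨h', h.2⟩⟩
      · right
        apply hQ i _ h.1
        intro h'
        exact hnab ⟨hne, i, Or.inr ⟨h', h.2⟩⟩
    · intro a ha b hb hab
      rw [c2] at hab
      have h1 := hsep (a • x) ha (b * a⁻¹) hab (by
        rw [smul_smul, inv_mul_cancel_right]; exact hb)
      exact (mul_inv_eq_one.mp h1).symm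
  have hfin : ∀ x, {g | Clus (CG r) (HG T E' key x) {g | g • x ∈ Q} R2 1 g}.Finite := by
    intro x
    refine (norm_finite r (2 * R3)).subset ?_
    intro g hg
    have := (facts x).2.2.2 1 g hg
    rw [c2] at this
    simpa using this
  let K : X → Finset (FreeGroup (Fin r)) := fun x => (hfin x).toFinset
  have hKmem : ∀ x g, g ∈ K x ↔ Clus (CG r) (HG T E' key x) {g | g • x ∈ Q} R2 1 g := by
    intro x g
    simp [K]
  have hKd : ∀ x a b, Clus (CG r) (HG T E' key (a • x)) {g | g • a • x ∈ Q} R2 1 b ↔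
      Clus (CG r) (HG T E' key x) {g | g • x ∈ Q} R2 a (b * a) := by
    intro x a b
    have := (hg_nat T hC E' key x a).2.2 Q R2 1 b
    simpa using this
  refine ⟨K, ⟨?_, ?_, ?_, ?_, ?_, ?_, ?_⟩⟩
  · intro x
    rw [hKmem]
    exact Or.inl rfl
  · intro x g hg k
    rw [hKmem] at hg ⊢
    rw [hKmem, hKd]
    constructor
    · intro h
      exact (facts x).1.trans hg h
    · intro h
      exact (facts x).1.trans ((facts x).1.symm hg) h
  · intro P
    have : {x | K x = P} = ⋂ g : FreeGroup (Fin r), {x | g ∈ K x ↔ g ∈ P} := by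
      ext x
      simp only [mem_setOf_eq, mem_iInter]
      constructor
      · intro h g; rw [h]
      · intro h; ext g; exact h g
    rw [this]
    apply MeasurableSet.iInter
    intro g
    have hm : MeasurableSet {x | g ∈ K x} := by
      simp only [hKmem]
      exact (hg_meas T hC E' hEm' key hkm 1 g).2.2.2.2.2.2 Q hQm R2
    by_cases hg : g ∈ P
    · have e : {x | g ∈ K x ↔ g ∈ P} = {x | g ∈ K x} := by ext x; simp [hg]
      rw [e]; exact hm
    · have e : {x | g ∈ K x ↔ g ∈ P} = {x | g ∈ K x}ᶜ := by ext x; simp [hg]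
      rw [e]; exact hm.compl
  · intro x g hg
    apply hS
    rw [hKmem] at hg
    have := (facts x).2.2.2 1 g hg
    rw [c2] at this
    simpa using this
  · intro x g hg
    rw [hKmem] at hg
    exact (facts x).2.2.1 1 g hg
  · intro x g hg
    rw [hKmem] at hg
    have h1 := (facts x).2.1 1
    have h2 := h1.preconnected ⟨1, (facts x).1.refl 1⟩ ⟨g, hg⟩
    rw [SimpleGraph.reachable_iff_reflTransGen] at h2
    have key2 : ∀ b : {z | Clus (CG r) (HG T E' key x) {g | g • x ∈ Q} R2 1 z},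
        Relation.ReflTransGen ((HG T E' key x).induce
          {z | Clus (CG r) (HG T E' key x) {g | g • x ∈ Q} R2 1 z}).Adj
          ⟨1, (facts x).1.refl 1⟩ b →
        Relation.ReflTransGen (fun a b => b ∈ K x ∧ a • x ∈ HD T E' key (b * a⁻¹)) 1 b.1 := by
      intro b hb
      induction hb with
      | refl => exact Relation.ReflTransGen.refl
      | @tail b c _ h ih =>
        refine ih.tail ⟨(hKmem x c.1).mpr c.2, ?_⟩
        rw [hd_mem T hC]
        exact h
    exact key2 _ h2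
  · intro x
    obtain ⟨t1, -, t3, -⟩ := tg_tree T hC x
    have hT' := (hyb_tree (CG r) (TG T x) (CC T E' x) c1 t1 (t3 E') N hN (fun a => key (a • x))
      (key_inj hC.freeU key hki x)).1
    have hT := (hyb_tree (CG r) (TG T x) (CC T E x) c1 t1 (t3 E) N hN (fun a => key (a • x))
      (key_inj hC.freeU key hki x)).1
    have h1 := glue_count (HG T E' key x) (HG T E key x) hT' hT _ (facts x).1 (facts x).2.1
      (facts x).2.2.1 1 (hfin x)
    have e : ∀ E'' : Fin r → Set X, {p : FreeGroup (Fin r) × FreeGroup (Fin r) |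
        p.1 ∈ K x ∧ p.2 ∈ K x ∧ p.1 • x ∈ HD T E'' key (p.2 * p.1⁻¹)} =
        {p | Clus (CG r) (HG T E' key x) {g | g • x ∈ Q} R2 1 p.1 ∧
          Clus (CG r) (HG T E' key x) {g | g • x ∈ Q} R2 1 p.2 ∧ (HG T E'' key x).Adj p.1 p.2} := by
      intro E''
      ext p
      simp only [mem_setOf_eq, hKmem, hd_mem T hC]
    rw [e E', e E]
    exact h1

end
end Pool.Agent.TH722.FI
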