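import Pool.Agent.TH722.FI.Defs
import Pool.Agent.TH480.FI.FI_LAB
import Pool.Agent.TH480.FI.FI_JMONO
import Pool.Agent.TH480.FI.FI_JPOS
import Pool.Agent.TH480.FI.FI_ENTSETS
import Pool.Agent.TH989.FI_GIBBS
import Pool.Agent.TH989.FI_JSPLIT
import Pool.Agent.TH959.FI_FSPLIT
import Pool.Agent.TH993.FI_FEXCH
import Pool.Agent.TH902.FI.Close
import Pool.Agent.TH722.FI.BF
import Pool.Agent.TH480.FI.FI_ENTGEN
import Pool.Agent.TH902.FI.Struct
import Pool.Agent.TH416.FI.BFU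
import Pool.Agent.TH902.FI.HybBd
namespace Pool.Agent.TH722.FI.Jobs
open MeasureTheory Set Filter Pool.Agent.TH722.FI
open scoped Topology ENNReal

section A
variable {X Y : Type*} [MeasurableSpace X] [MeasurableSpace Y] {μ : Measure X} [IsProbabilityMeasure μ]
  {α β α' β' γ κ : Type*}

-- LAB
theorem lab_pair {a : X → α} {b : X → β} (ha : IsLab μ a) (hb : IsLab μ b) :
    IsLab μ (fun x => (a x, b x)) ∧ ent μ (fun x => (a x, b x)) ≤ ent μ a + ent μ b := Pool.Agent.TH480.FI.lab_pair ha hb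
theorem lab_of_finer {a : X → α} {b : X → β} (ha : IsLab μ a) (h : Finer a b) :
    IsLab μ b ∧ ent μ b ≤ ent μ a := Pool.Agent.TH480.FI.lab_of_finer ha h
theorem lab_finite {a : X → α} (hm : ∀ c, MeasurableSet {x | a x = c}) (hf : (range a).Finite) :
    IsLab μ a := Pool.Agent.TH480.FI.lab_finite hm hf
theorem lab_comp {ν : Measure Y} [IsProbabilityMeasure ν] {T : Y → X} (hT : MeasurePreserving T ν μ)
    {a : X → α} (ha : IsLab μ a) :
    IsLab ν (fun y => a (T y)) ∧ ent ν (fun y => a (T y)) = ent μ a := Pool.Agent.TH480.FI.lab_comp hT ha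
theorem lab_shannon {a : X → α} (hm : ∀ c, MeasurableSet {x | a x = c}) (hc : (range a).Countable) :
    (IsLab μ a ↔ Summable (fun c => Real.negMulLog (μ.real {x | a x = c}))) ∧
    ent μ a = ∑' c, Real.negMulLog (μ.real {x | a x = c}) := Pool.Agent.TH480.FI.lab_shannon hm hc

-- GIBBS
theorem gibbs (D : Set X) (hD : MeasurableSet D) (m : X → γ) (hm : ∀ c, MeasurableSet {x | m x = c})
    (hc : (range m).Countable) (Q : γ → ℝ) (hQ : ∀ c, 0 ≤ Q c) (hQs : Summable Q)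
    (hpos : ∀ᵐ x ∂(μ.restrict D), 0 < Q (m x))
    (hint : IntegrableOn (fun x => Real.log (Q (m x) / μ.real {y | y ∈ D ∧ m y = m x})) D μ) :
    ∫ x in D, Real.log (Q (m x) / μ.real {y | y ∈ D ∧ m y = m x}) ∂μ ≤ ∑' c, Q c - μ.real D := Pool.Agent.TH989.FI.gibbs D hD m hm hc Q hQ hQs hpos hint

-- JMONO
theorem jfun_integrable (D : Set X) (hD : MeasurableSet D) {a : X → α} {b : X → β}
    (ha : IsLab μ a) (hb : IsLab μ b) : IntegrableOn (jfun μ D a b) D μ := Pool.Agent.TH480.FI.jfun_integrable D hD ha hb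
theorem J_mono (D : Set X) (hD : MeasurableSet D) {a : X → α} {b : X → β} {a' : X → α'} {b' : X → β'}
    (ha' : IsLab μ a') (hb' : IsLab μ b') (haa : Finer a' a) (hbb : Finer b' b) :
    J μ D a b ≤ J μ D a' b' := Pool.Agent.TH480.FI.J_mono D hD ha' hb' haa hbb

-- JSPLIT
theorem J_split (D : Set X) (hD : MeasurableSet D) {a : X → α} {b : X → β}
    (ha : IsLab μ a) (hb : IsLab μ b) (i : X → κ) (I : Finset κ) (hi : ∀ x ∈ D, i x ∈ I)
    (him : ∀ k, MeasurableSet {x | i x = k})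
    (hdet : ∀ x ∈ D, ∀ y ∈ D, a x = a y → b x = b y → i x = i y) :
    J μ D a b = ∑ k ∈ I, J μ (D ∩ {x | i x = k}) a b := Pool.Agent.TH989.FI.J_split D hD ha hb i I hi him hdet

-- JPOS
theorem J_nonneg (D : Set X) (hD : MeasurableSet D) {a : X → α} {b : X → β}
    (ha : IsLab μ a) (hb : IsLab μ b) (hDa : ∀ x y, a x = a y → (x ∈ D ↔ y ∈ D))
    (hDb : ∀ x y, b x = b y → (x ∈ D ↔ y ∈ D)) : 0 ≤ J μ D a b := Pool.Agent.TH480.FI.J_nonneg D hD ha hb hDa hDb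
theorem J_loss (E : Set X) (hE : MeasurableSet E) {a : X → α} {b : X → β}
    (ha : IsLab μ a) (hb : IsLab μ b) :
    J μ univ a b - (μ.real Eᶜ + ∫ x in Eᶜ, info μ a x ∂μ) ≤ J μ E a b := Pool.Agent.TH480.FI.J_loss E hE ha hb
theorem J_univ {a : X → α} {b : X → β} (ha : IsLab μ a) (hb : IsLab μ b) :
    J μ univ a b = ent μ a + ent μ b - ent μ (fun x => (a x, b x)) := Pool.Agent.TH480.FI.J_univ ha hb
theorem J_symm (D : Set X) {a : X → α} {b : X → β} : J μ D a b = J μ D b a := Pool.Agent.TH480.FI.J_symm D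
theorem J_map (T : X ≃ᵐ X) (hT : MeasurePreserving T μ μ) (D : Set X) {a : X → α} {b : X → β} :
    J μ (T ⁻¹' D) (fun x => a (T x)) (fun x => b (T x)) = J μ D a b := Pool.Agent.TH480.FI.J_map T hT D

-- ENTGEN
theorem ent_gen {P : ℕ → Type*} (p : ∀ n, X → P n) (hp : ∀ n, IsLab μ (p n))
    (hmono : ∀ n, Finer (p (n + 1)) (p n))
    (hgen : ∀ B : Set X, MeasurableSet B → ∃ B' : Set X,
      MeasurableSet[⨆ n, MeasurableSpace.comap (p n) ⊤] B' ∧ B =ᵐ[μ] B')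
    {c : X → γ} (hc : IsLab μ c) :
    Tendsto (fun n => ent μ (fun x => (p n x, c x)) - ent μ (p n)) atTop (𝓝 0) := Pool.Agent.TH480.FI.ent_gen p hp hmono hgen hc

-- ENTSETS
theorem ent_sets (I : Finset κ) (Q : κ → Set X) (hQ : ∀ k, MeasurableSet (Q k)) :
    IsLab μ (fun x => {k : κ | k ∈ I ∧ x ∈ Q k}) ∧
    ent μ (fun x => {k : κ | k ∈ I ∧ x ∈ Q k}) ≤ ∑ k ∈ I, Real.binEntropy (μ.real (Q k)) := Pool.Agent.TH480.FI.ent_sets I Q hQ
theorem binEnt_small (r : ℕ) (ε : ℝ) (hε : 0 < ε) : ∃ δ > 0,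
    ∀ (S : Finset (FreeGroup (Fin r))) (m : FreeGroup (Fin r) → ℝ),
      (∀ g, 0 ≤ m g) → (∀ g, m g ≤ 1) → ∑ g ∈ S, m g * ((g.norm : ℝ) + 1) ≤ δ →
      ∑ g ∈ S, Real.binEntropy (m g) ≤ ε := Pool.Agent.TH480.FI.binEnt_small r ε hε
theorem norm_ent (r : ℕ) (b : X → FreeGroup (Fin r)) (hb : ∀ c, MeasurableSet {x | b x = c})
    (hi : Integrable (fun x => ((b x).norm : ℝ)) μ) : IsLab μ b := Pool.Agent.TH480.FI.norm_ent r b hb hi

end A

section B
variable {G X : Type*} [Group G] [MulAction G X] [MeasurableSpace X] {μ : Measure X}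
  [IsProbabilityMeasure μ] {α β γ : Type*}

-- FSPLIT
theorem F_congr (hact : ∀ g : G, MeasurePreserving (fun x : X => g • x) μ μ)
    (D : G → Set X) (S : Finset G) {l : X → α} {l' : X → β} (h : Finer l l') (h' : Finer l' l) :
    F μ S D l = F μ S D l' := Pool.Agent.TH959.FIS.F_congr hact D S h h'
theorem F_join (hact : ∀ g : G, MeasurePreserving (fun x : X => g • x) μ μ)
    (D : G → Set X) (S : Finset G) (hD : GF D S) {l : X → α} (hl : IsLab μ l) {c : X → γ}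
    (hc : IsLab μ c) :
    F μ S D (fun x => (l x, c x)) ≤ F μ S D l + (ent μ (fun x => (l x, c x)) - ent μ l) := Pool.Agent.TH959.FIS.F_join hact D S hD hl hc
theorem F_split (hact : ∀ g : G, MeasurePreserving (fun x : X => g • x) μ μ)
    (D : G → Set X) (S : Finset G) (hD : GF D S) {l : X → α} (hl : IsLab μ l)
    (g : G) (hg : g⁻¹ ≠ g) (E : Set X) (hE : MeasurableSet E) (hED : E ⊆ D g)
    (hEl : ∀ x y, l x = l y → (x ∈ E ↔ y ∈ E)) {c : X → γ} (hc : Finer l c) :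
    IsLab μ (fun x => (l x, onSet E (fun y => c (g • y)) x)) ∧
    F μ S D (fun x => (l x, onSet E (fun y => c (g • y)) x)) ≤ F μ S D l := Pool.Agent.TH959.FIS.F_split hact D S hD hl g hg E hE hED hEl hc

-- FEXCH
theorem F_exchange (hact : ∀ g : G, MeasurePreserving (fun x : X => g • x) μ μ)
    (hfree : ∀ (g : G) (x : X), g • x = x → g = 1)
    (A B : G → Set X) (K : X → Finset G) (S : Finset G) (hA : GF A S) (hB : GF B S)
    (hK : ClusterPair A B K S) {l : X → α} (hl : IsLab μ l) (hAl : Adapted A l) (hBl : Adapted B l)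
    (hKl : ∀ x y, l x = l y → K x = K y)
    (hconst : ∀ x y, l x = l y → ∀ g ∈ K x, l (g • x) = l (g • y)) :
    F μ S A l = F μ S B l := Pool.Agent.TH993.FI.F_exchange hact hfree A B K S hA hB hK hl hAl hBl hKl hconst

-- FCLOSE
theorem F_close (hact : ∀ g : G, MeasurePreserving (fun x : X => g • x) μ μ)
    (htf : ∀ g : G, g ≠ 1 → g⁻¹ ≠ g)
    (A B : G → Set X) (K : X → Finset G) (S : Finset G) (hA : GF A S)
    (hK : ClusterPair A B K S) {l : X → α} (hl : IsLab μ l) (hAl : Adapted A l)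
    (hKl : ∀ x y, l x = l y → K x = K y) :
    ∃ l' : X → ℕ, IsLab μ l' ∧ Finer l' l ∧
      (∀ x y, l' x = l' y → ∀ g ∈ K x, l' (g • x) = l' (g • y)) ∧
      F μ S A l' ≤ F μ S A l := Pool.Agent.TH902.FI.F_close hact htf A B K S hA hK hl hAl hKl

-- FSTRUCT
theorem F_structure [Countable G] (hact : ∀ g : G, MeasurePreserving (fun x : X => g • x) μ μ)
    (hfree : ∀ (g : G) (x : X), g • x = x → g = 1) (htf : ∀ g : G, g ≠ 1 → g⁻¹ ≠ g)
    (D : G → Set X) (S : Finset G) (hD : GF D S)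
    (hconn : ∀ (x : X) (g : G),
      Relation.ReflTransGen (fun y z => ∃ k : G, y ∈ D k ∧ z = k • y) x (g • x))
    {w : X → α} (hw : IsLab μ w) (hwD : Adapted D w)
    (hgen : ∀ B : Set X, MeasurableSet B → ∃ B' : Set X,
      MeasurableSet[⨆ g : G, MeasurableSpace.comap (fun x : X => w (g • x)) ⊤] B' ∧ B =ᵐ[μ] B')
    {c : X → γ} (hc : IsLab μ c) (ε : ℝ) (hε : 0 < ε) :
    ∃ l : X → ℕ, IsLab μ l ∧ Finer l w ∧ Finer l c ∧ F μ S D l ≤ F μ S D w + ε := Pool.Agent.TH902.FI.F_structure hact hfree htf D S hD hconn hw hwD hgen hc ε hε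

end B

section C
variable {r : ℕ} {X : Type*} [MeasurableSpace X] {μ : Measure X}
  [IsProbabilityMeasure μ] {α β γ : Type*}

-- BFU
theorem BF_le_of_finer (U : FreeGroup (Fin r) → X → X) (hU : FreeAct μ U) {φ : X → α}
    (hφ : IsLab μ φ) (hgen : Gen μ U φ) {l : X → β} (hl : IsLab μ l) (hlφ : Finer l φ)
    (ε : ℝ) (hε : 0 < ε) : ∃ n, BF μ U (ballLab U φ n) ≤ BF μ U l + ε := Pool.Agent.TH416.FI.BF_le_of_finer U hU hφ hgen hl hlφ ε hε
theorem BF_antitone (U : FreeGroup (Fin r) → X → X) (hU : FreeAct μ U) {φ : X → α}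
    (hφ : IsLab μ φ) : (∀ n, IsLab μ (ballLab U φ n)) ∧
      Antitone (fun n => BF μ U (ballLab U φ n)) := Pool.Agent.TH416.FI.BF_antitone U hU hφ
theorem BF_join_gen (U : FreeGroup (Fin r) → X → X) (hU : FreeAct μ U) {φ : X → α}
    (hφ : IsLab μ φ) (hgen : Gen μ U φ) {c : X → γ} (hc : IsLab μ c)
    (ε : ℝ) (hε : 0 < ε) : ∃ n0, ∀ n ≥ n0,
      IsLab μ (fun x => (ballLab U φ n x, c x)) ∧
      BF μ U (fun x => (ballLab U φ n x, c x)) ≤ BF μ U (ballLab U φ n) + ε := Pool.Agent.TH416.FI.BF_join_gen U hU hφ hgen hc ε hε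
theorem BF_split (U : FreeGroup (Fin r) → X → X) (hU : FreeAct μ U) {l : X → α} (hl : IsLab μ l)
    {c : X → γ} (hc : Finer l c) (i : Fin r) :
    BF μ U (fun x => (l x, c (U (FreeGroup.of i) x))) ≤ BF μ U l ∧
    BF μ U (fun x => (l x, c (U (FreeGroup.of i)⁻¹ x))) ≤ BF μ U l := Pool.Agent.TH722.FI.BF_split U hU hl hc i
theorem BF_join (U : FreeGroup (Fin r) → X → X) (hU : FreeAct μ U) {l : X → α} (hl : IsLab μ l)
    {c : X → γ} (hc : IsLab μ c) :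
    BF μ U (fun x => (l x, c x)) ≤ BF μ U l + (ent μ (fun x => (l x, c x)) - ent μ l) := Pool.Agent.TH722.FI.BF_join U hU hl hc

-- HYBBD
theorem hybrid_bound [MulAction (FreeGroup (Fin r)) X] (T : FreeGroup (Fin r) → X → X)
    (hC : Common μ T) (E : Fin r → Set X) (hE : ∀ i, MeasurableSet (E i))
    (D Bk : FreeGroup (Fin r) → Set X) (S : Finset (FreeGroup (Fin r))) (hD : GF D S)
    (hBm : ∀ g, MeasurableSet (Bk g))
    (hBs : ∀ (g : FreeGroup (Fin r)) (x : X), x ∈ Bk g ↔ g • x ∈ Bk g⁻¹)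
    (hdec : ∀ (g : FreeGroup (Fin r)) (x : X), x ∈ D g ↔ (x ∈ Bk g ∨ ∃ i, (x ∈ E i ∧ T (FreeGroup.of i) x = g • x) ∨
      (T (FreeGroup.of i)⁻¹ x ∈ E i ∧ T (FreeGroup.of i)⁻¹ x = g • x)))
    (hdisj : ∀ (g : FreeGroup (Fin r)) (x : X), x ∈ Bk g → ¬ ∃ i, (x ∈ E i ∧ T (FreeGroup.of i) x = g • x) ∨
      (T (FreeGroup.of i)⁻¹ x ∈ E i ∧ T (FreeGroup.of i)⁻¹ x = g • x))
    {χ : X → α} (hχ : IsLab μ χ) {w : X → β} (hw : IsLab μ w) (hwχ : Finer w χ)
    (hw1 : ∀ (g : FreeGroup (Fin r)) (x y : X), w x = w y → (x ∈ Bk g ↔ y ∈ Bk g))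
    (hw2 : ∀ (i : Fin r) (g : FreeGroup (Fin r)) (x y : X), w x = w y → ((x ∈ E i ∧ T (FreeGroup.of i) x = g • x) ↔
      (y ∈ E i ∧ T (FreeGroup.of i) y = g • y)))
    (hw3 : ∀ (i : Fin r) (g : FreeGroup (Fin r)) (x y : X), w x = w y →
      ((T (FreeGroup.of i)⁻¹ x ∈ E i ∧ T (FreeGroup.of i)⁻¹ x = g • x) ↔
      (T (FreeGroup.of i)⁻¹ y ∈ E i ∧ T (FreeGroup.of i)⁻¹ y = g • y))) :
    F μ S D w ≤ BF μ T χ + (ent μ w - ent μ χ)
      + ∑ i, (μ.real (E i)ᶜ + ∫ x in (E i)ᶜ, info μ χ x ∂μ) := Pool.Agent.TH902.FI.hybrid_bound T hC E hE D Bk S hD hBm hBs hdec hdisj hχ hw hwχ hw1 hw2 hw3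
end C
end Pool.Agent.TH722.FI.Jobs
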